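import Pool.Agent.Helper68.TG.Goals

/-!
# Project TG (MP_a41896_nt), packet LFT: a family of polynomials of bounded degree is a
polynomial over `ℕ → F`
-/

set_option autoImplicit false

open MvPolynomial

namespace Pool.Agent.Helper71.TG.LFT

theorem t_LFT : Pool.Agent.Helper68.TG.LFT := by
  intro F _ σ _ _ P D hP
  classical
  set b : σ →₀ ℕ := Finsupp.equivFunOnFinite.symm (fun _ => D) with hb
  refine ⟨∑ m ∈ Finset.Iic b, monomial m (fun k => coeff m (P k)), fun k => ?_⟩
  rw [map_sum]
  have h1 : ∀ m ∈ Finset.Iic b, MvPolynomial.map (Pi.evalRingHom (fun _ => F) k)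
      (monomial m (fun k => coeff m (P k))) = monomial m (coeff m (P k)) := by
    intro m _
    rw [map_monomial]
    rfl
  rw [Finset.sum_congr rfl h1]
  conv_rhs => rw [(P k).as_sum]
  symm
  apply Finset.sum_subset
  · intro m hm
    rw [Finset.mem_Iic]
    intro i
    rw [hb, Finsupp.equivFunOnFinite_symm_apply_apply]
    exact (monomial_le_degreeOf i hm).trans (hP k i)
  · intro m _ hm
    rw [notMem_support_iff.mp hm, monomial_zero]

end Pool.Agent.Helper71.TG.LFT
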